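import Mathlib

set_option autoImplicit false

namespace Pool.Agent.Results.MP_2d1133_lc.ContinuousImages

open Set Filter Topology MeasureTheory
open scoped ENNReal NNReal

/-- The Euclidean plane. -/
abbrev Plane : Type := EuclideanSpace ℝ (Fin 2)

theorem hausdorff_zero_of_io {X : Type*} [EMetricSpace X] [MeasurableSpace X] [BorelSpace X]
    (d : ℝ) (hd : 0 < d) (S : Set X) (ι : ℕ → Type) [∀ k, Fintype (ι k)]
    (T : ∀ k, ι k → Set X) (r : ℕ → ℝ≥0∞) (hr : Tendsto r atTop (𝓝 0)) (hanti : Antitone r)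
    (hT : ∀ k i, Metric.ediam (T k i) ≤ r k)
    (hS : ∀ x ∈ S, ∀ N : ℕ, ∃ k ≥ N, ∃ i, x ∈ T k i)
    (hsum : ∑' k, (Fintype.card (ι k) : ℝ≥0∞) * r k ^ d ≠ ∞) : μH[d] S = 0 := by
  have h1 := Measure.hausdorffMeasure_le_liminf_tsum (X := X) d S (l := atTop) (β := ℕ)
    (ι := fun N => Σ k : ℕ, ι (k + N)) r hr (fun N p => T (p.1 + N) p.2)
    (Eventually.of_forall fun N p => (hT _ _).trans (hanti (Nat.le_add_left _ _)))
    (Eventually.of_forall fun N => by
      intro x hx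
      obtain ⟨k, hk, i, hi⟩ := hS x hx N
      obtain ⟨l, rfl⟩ : ∃ l, k = l + N := ⟨k - N, by omega⟩
      exact mem_iUnion.mpr ⟨⟨l, i⟩, hi⟩)
  have h2 : ∀ N, ∑' p : (Σ k : ℕ, ι (k + N)), Metric.ediam (T (p.1 + N) p.2) ^ d ≤
      ∑' k, (Fintype.card (ι (k + N)) : ℝ≥0∞) * r (k + N) ^ d := by
    intro N
    rw [ENNReal.tsum_sigma']
    apply ENNReal.tsum_le_tsum
    intro k
    rw [tsum_fintype]
    calc ∑ i : ι (k + N), Metric.ediam (T (k + N) i) ^ d ≤ ∑ i : ι (k + N), r (k + N) ^ d := by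
          apply Finset.sum_le_sum
          intro i _
          exact ENNReal.rpow_le_rpow (hT _ _) hd.le
      _ = (Fintype.card (ι (k + N)) : ℝ≥0∞) * r (k + N) ^ d := by
          rw [Finset.sum_const, Finset.card_univ, nsmul_eq_mul]
  have h3 : Tendsto (fun N => ∑' k, (Fintype.card (ι (k + N)) : ℝ≥0∞) * r (k + N) ^ d) atTop
      (𝓝 0) :=
    ENNReal.tendsto_sum_nat_add (fun k => (Fintype.card (ι k) : ℝ≥0∞) * r k ^ d) hsum
  have h4 : Tendsto (fun N => ∑' p : (Σ k : ℕ, ι (k + N)), Metric.ediam (T (p.1 + N) p.2) ^ d)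
      atTop (𝓝 0) :=
    tendsto_of_tendsto_of_tendsto_of_le_of_le tendsto_const_nhds h3 (fun _ => bot_le) h2
  rw [h4.liminf_eq] at h1
  exact le_antisymm h1 bot_le

/-- Widths of the strips. -/
noncomputable def w (k : ℕ) : ℝ := (1 / 2 : ℝ) ^ (k ^ 2)

theorem w_pos (k : ℕ) : 0 < w k := by
  unfold w
  positivity

theorem dist_le (x y : Plane) : dist x y ≤ |x 0 - y 0| + |x 1 - y 1| := by
  rw [EuclideanSpace.dist_eq]
  simp only [Fin.sum_univ_two, Real.dist_eq]
  rw [Real.sqrt_le_left (by positivity)]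
  have h1 := abs_nonneg (x 0 - y 0)
  have h2 := abs_nonneg (x 1 - y 1)
  nlinarith

/-- The points which are too close to the dyadic grid infinitely often. -/
def Z (i : Fin 2) : Set Plane := {x | ∀ N : ℕ, ∃ k ≥ N, ∃ m : ℤ, |x i - m / 2 ^ k| < w k}

/-- The cells of the covers. -/
noncomputable def cells (n k : ℕ) : Finset (ℤ × ℤ) :=
  Finset.Icc (-((n * 2 ^ k + 1 : ℕ) : ℤ)) ((n * 2 ^ k + 1 : ℕ) : ℤ) ×ˢ
    Finset.Icc (-((n * 2 ^ (k ^ 2) + 1 : ℕ) : ℤ)) ((n * 2 ^ (k ^ 2) + 1 : ℕ) : ℤ)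

theorem cells_card (n k : ℕ) :
    ((cells n k).card : ℝ) ≤ (2 * n + 3) ^ 2 * (2 ^ k * 2 ^ (k ^ 2)) := by
  have h1 : (cells n k).card = (2 * (n * 2 ^ k + 1) + 1) * (2 * (n * 2 ^ (k ^ 2) + 1) + 1) := by
    unfold cells
    rw [Finset.card_product, Int.card_Icc, Int.card_Icc]
    congr 1 <;> omega
  rw [h1]
  push_cast
  have h2 : (1 : ℝ) ≤ 2 ^ k := one_le_pow₀ (by norm_num)
  have h3 : (1 : ℝ) ≤ 2 ^ (k ^ 2) := one_le_pow₀ (by norm_num)
  have h4 : (2 * (n * 2 ^ k + 1) + 1 : ℝ) ≤ (2 * n + 3) * 2 ^ k := by nlinarith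
  have h5 : (2 * (n * 2 ^ (k ^ 2) + 1) + 1 : ℝ) ≤ (2 * n + 3) * 2 ^ (k ^ 2) := by nlinarith
  calc (2 * (n * 2 ^ k + 1) + 1 : ℝ) * (2 * (n * 2 ^ (k ^ 2) + 1) + 1)
      ≤ ((2 * n + 3) * 2 ^ k) * ((2 * n + 3) * 2 ^ (k ^ 2)) := by
        apply mul_le_mul h4 h5 <;> positivity
    _ = _ := by ring

theorem summable_main (ε : ℝ) (hε : 0 < ε) :
    Summable (fun k : ℕ => (2 : ℝ) ^ ((k : ℝ) - ε * (k : ℝ) ^ 2)) := by
  obtain ⟨K, hK⟩ := exists_nat_gt (2 / ε)
  have hg : Summable (fun k : ℕ => (1 / 2 : ℝ) ^ k) :=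
    summable_geometric_of_lt_one (by norm_num) (by norm_num)
  refine Summable.of_norm_bounded_eventually_nat hg ?_
  filter_upwards [eventually_ge_atTop K] with k hk
  rw [Real.norm_of_nonneg (by positivity)]
  have h1 : (1 / 2 : ℝ) ^ k = (2 : ℝ) ^ (-(k : ℝ)) := by
    rw [Real.rpow_neg (by norm_num), Real.rpow_natCast, one_div, inv_pow]
  rw [h1]
  apply Real.rpow_le_rpow_of_exponent_le (by norm_num)
  have h2 : 2 / ε < (k : ℝ) := hK.trans_le (by exact_mod_cast hk)
  rw [div_lt_iff₀ hε] at h2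
  have h3 : (0 : ℝ) ≤ k := Nat.cast_nonneg k
  nlinarith

theorem dimH_Z (i : Fin 2) : dimH (Z i) ≤ 1 := by
  have hZ : Z i = ⋃ n : ℕ, Z i ∩ {x | ∀ j, |x j| ≤ n} := by
    rw [← inter_iUnion]
    symm
    apply inter_eq_left.mpr
    intro x _
    obtain ⟨n, hn⟩ := exists_nat_ge (max |x 0| |x 1|)
    refine mem_iUnion.mpr ⟨n, ?_⟩
    intro j
    fin_cases j
    · exact (le_max_left _ _).trans hn
    · exact (le_max_right _ _).trans hn
  rw [hZ, dimH_iUnion]
  apply iSup_le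
  intro n
  apply dimH_le
  intro d hd
  by_contra hcon
  have hd1 : (1 : ℝ) < d := by
    rw [not_le] at hcon
    exact_mod_cast hcon
  have hzero : μH[d] (Z i ∩ {x : Plane | ∀ j, |x j| ≤ n}) = 0 := by
    let j : Fin 2 := 1 - i
    apply hausdorff_zero_of_io (d : ℝ) (by linarith) _ (fun k => (cells n k))
      (fun k c => {x : Plane | |x i - c.1.1 / 2 ^ k| ≤ w k ∧ |x j - c.1.2 * w k| ≤ w k})
      (fun k => ENNReal.ofReal (4 * w k))
    · have h1 : Tendsto (fun k => 4 * w k) atTop (𝓝 0) := by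
        have h2 : Tendsto w atTop (𝓝 0) := by
          have h3 : Tendsto (fun k : ℕ => (1 / 2 : ℝ) ^ k) atTop (𝓝 0) :=
            tendsto_pow_atTop_nhds_zero_of_lt_one (by norm_num) (by norm_num)
          refine squeeze_zero (fun k => (w_pos k).le) (fun k => ?_) h3
          unfold w
          apply pow_le_pow_of_le_one (by norm_num) (by norm_num)
          nlinarith [Nat.zero_le k, sq_nonneg k]
        simpa using h2.const_mul 4
      have h2 := ENNReal.tendsto_ofReal h1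
      simpa using h2
    · intro k l hkl
      apply ENNReal.ofReal_le_ofReal
      apply mul_le_mul_of_nonneg_left _ (by norm_num)
      unfold w
      apply pow_le_pow_of_le_one (by norm_num) (by norm_num)
      exact Nat.pow_le_pow_left hkl 2
    · intro k c
      apply Metric.ediam_le
      rintro x ⟨hx1, hx2⟩ y ⟨hy1, hy2⟩
      rw [edist_dist]
      apply ENNReal.ofReal_le_ofReal
      have h1 : |x i - y i| ≤ 2 * w k := by
        rw [abs_le] at *
        constructor <;> linarith [hx1.1, hx1.2, hy1.1, hy1.2]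
      have h2 : |x j - y j| ≤ 2 * w k := by
        rw [abs_le] at *
        constructor <;> linarith [hx2.1, hx2.2, hy2.1, hy2.2]
      have h3 : |x 0 - y 0| + |x 1 - y 1| = |x i - y i| + |x j - y j| := by
        have hj : j = 1 - i := rfl
        clear_value j
        subst hj
        fin_cases i
        · rfl
        · exact add_comm _ _
      have h4 := dist_le x y
      linarith
    · rintro x ⟨hx1, hx2⟩ N
      obtain ⟨k, hk, m, hm⟩ := hx1 N
      have hw := w_pos k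
      have hmem : ((m, round (x j / w k)) : ℤ × ℤ) ∈ cells n k := by
        unfold cells
        rw [Finset.mem_product, Finset.mem_Icc, Finset.mem_Icc]
        have h2k : (0 : ℝ) < 2 ^ k := by positivity
        have hwle : w k * 2 ^ k ≤ 1 := by
          unfold w
          have : (1 / 2 : ℝ) ^ (k ^ 2) ≤ (1 / 2) ^ k := by
            apply pow_le_pow_of_le_one (by norm_num) (by norm_num)
            nlinarith [Nat.zero_le k]
          calc (1 / 2 : ℝ) ^ (k ^ 2) * 2 ^ k ≤ (1 / 2) ^ k * 2 ^ k := by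
                apply mul_le_mul_of_nonneg_right this h2k.le
            _ = 1 := by
                rw [← mul_pow]
                norm_num
        have hm2 : |(m : ℝ)| ≤ n * 2 ^ k + 1 := by
          have h1 : (m : ℝ) = (m / 2 ^ k - x i) * 2 ^ k + x i * 2 ^ k := by
            field_simp
            ring
          rw [h1]
          calc |(m / 2 ^ k - x i) * 2 ^ k + x i * 2 ^ k|
              ≤ |(m / 2 ^ k - x i) * 2 ^ k| + |x i * 2 ^ k| := abs_add_le _ _
            _ = |x i - m / 2 ^ k| * 2 ^ k + |x i| * 2 ^ k := by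
                rw [abs_mul, abs_mul, abs_of_pos h2k, abs_sub_comm]
            _ ≤ w k * 2 ^ k + n * 2 ^ k := by
                have := hx2 i
                apply add_le_add
                · exact mul_le_mul_of_nonneg_right hm.le h2k.le
                · exact mul_le_mul_of_nonneg_right this h2k.le
            _ ≤ n * 2 ^ k + 1 := by linarith
        have hr2 : |((round (x j / w k) : ℤ) : ℝ)| ≤ n * 2 ^ (k ^ 2) + 1 := by
          have h1 := abs_sub_round (x j / w k)
          have h2 : |x j / w k| ≤ n * 2 ^ (k ^ 2) := by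
            rw [abs_div, abs_of_pos hw, div_le_iff₀ hw]
            have h3 : (n : ℝ) * 2 ^ (k ^ 2) * w k = n := by
              unfold w
              rw [mul_assoc, ← mul_pow]
              norm_num
            rw [h3]
            exact hx2 j
          rw [abs_le] at *
          constructor <;> linarith [h1.1, h1.2, h2.1, h2.2]
        have e1 : ((n * 2 ^ k + 1 : ℕ) : ℝ) = n * 2 ^ k + 1 := by push_cast; ring
        have e2 : ((n * 2 ^ (k ^ 2) + 1 : ℕ) : ℝ) = n * 2 ^ (k ^ 2) + 1 := by push_cast; ring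
        rw [← e1] at hm2
        rw [← e2] at hr2
        rw [abs_le] at hm2 hr2
        refine ⟨⟨?_, ?_⟩, ⟨?_, ?_⟩⟩
        · exact_mod_cast hm2.1
        · exact_mod_cast hm2.2
        · exact_mod_cast hr2.1
        · exact_mod_cast hr2.2
      refine ⟨k, hk, ⟨_, hmem⟩, hm.le, ?_⟩
      have h1 := abs_sub_round (x j / w k)
      have h2 : x j - (round (x j / w k) : ℤ) * w k =
          (x j / w k - (round (x j / w k) : ℤ)) * w k := by
        field_simp
      change |x j - (round (x j / w k) : ℤ) * w k| ≤ w k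
      rw [h2, abs_mul, abs_of_pos hw]
      nlinarith
    · have hs := (summable_main ((d : ℝ) - 1) (by linarith)).mul_left
        ((2 * n + 3) ^ 2 * (4 : ℝ) ^ (d : ℝ))
      have hb : ∀ k : ℕ, (Fintype.card (cells n k) : ℝ≥0∞) * ENNReal.ofReal (4 * w k) ^ (d : ℝ) ≤
          ENNReal.ofReal ((2 * n + 3) ^ 2 * (4 : ℝ) ^ (d : ℝ) *
            (2 : ℝ) ^ ((k : ℝ) - ((d : ℝ) - 1) * (k : ℝ) ^ 2)) := by
        intro k
        have hw := w_pos k
        rw [ENNReal.ofReal_rpow_of_nonneg (by positivity) (by linarith), Fintype.card_coe,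
          ← ENNReal.ofReal_natCast, ← ENNReal.ofReal_mul (Nat.cast_nonneg _)]
        apply ENNReal.ofReal_le_ofReal
        have h1 := cells_card n k
        rw [Real.mul_rpow (by norm_num) hw.le]
        have h2 : w k ^ (d : ℝ) = (2 : ℝ) ^ (-((d : ℝ) * (k : ℝ) ^ 2)) := by
          unfold w
          rw [one_div, inv_pow, ← Real.rpow_natCast, ← Real.rpow_neg (by norm_num),
            ← Real.rpow_mul (by norm_num)]
          congr 1
          push_cast
          ring
        have h3 : (2 : ℝ) ^ k * 2 ^ (k ^ 2) * (2 : ℝ) ^ (-((d : ℝ) * (k : ℝ) ^ 2)) =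
            (2 : ℝ) ^ ((k : ℝ) - ((d : ℝ) - 1) * (k : ℝ) ^ 2) := by
          rw [← Real.rpow_natCast 2 k, ← Real.rpow_natCast 2 (k ^ 2),
            ← Real.rpow_add (by norm_num), ← Real.rpow_add (by norm_num)]
          congr 1
          push_cast
          ring
        rw [h2, ← h3]
        calc ((cells n k).card : ℝ) * (4 ^ (d : ℝ) * 2 ^ (-((d : ℝ) * (k : ℝ) ^ 2)))
            ≤ ((2 * n + 3) ^ 2 * (2 ^ k * 2 ^ (k ^ 2))) *
              (4 ^ (d : ℝ) * 2 ^ (-((d : ℝ) * (k : ℝ) ^ 2))) := by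
              apply mul_le_mul_of_nonneg_right h1
              positivity
          _ = _ := by ring
      refine ne_top_of_le_ne_top ?_ (ENNReal.tsum_le_tsum hb)
      rw [← ENNReal.ofReal_tsum_of_nonneg (fun k => by positivity) hs]
      exact ENNReal.ofReal_ne_top
  rw [hzero] at hd
  exact ENNReal.zero_ne_top hd

/-- The compact pieces: points of a closed dyadic square of level `j` which stay away from the
dyadic grids of all levels `k ≥ j`. -/
def C (j : ℕ) (q : Fin 2 → ℤ) : Set Plane :=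
  {x | (∀ k ≥ j, ∀ i, ∀ m : ℤ, w k ≤ |x i - m / 2 ^ k|) ∧
    ∀ i, (q i : ℝ) / 2 ^ j ≤ x i ∧ x i ≤ (q i + 1) / 2 ^ j}

theorem isClosed_C (j : ℕ) (q : Fin 2 → ℤ) : IsClosed (C j q) := by
  have : C j q = (⋂ k ≥ j, ⋂ i, ⋂ m : ℤ, {x : Plane | w k ≤ |x i - m / 2 ^ k|}) ∩
      ⋂ i, ({x : Plane | (q i : ℝ) / 2 ^ j ≤ x i} ∩ {x : Plane | x i ≤ (q i + 1) / 2 ^ j}) := by
    ext x
    simp only [C, mem_ofPred_eq, mem_inter_iff, mem_iInter]
  rw [this]
  refine IsClosed.inter ?_ ?_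
  · refine isClosed_iInter fun k => isClosed_iInter fun _ => isClosed_iInter fun i =>
      isClosed_iInter fun m => isClosed_le continuous_const ?_
    fun_prop
  · refine isClosed_iInter fun i => IsClosed.inter (isClosed_le continuous_const ?_)
      (isClosed_le ?_ continuous_const)
    · fun_prop
    · fun_prop

theorem cover_C (x : Plane) : x ∈ Z 0 ∨ x ∈ Z 1 ∨ ∃ j q, x ∈ C j q := by
  by_cases h0 : x ∈ Z 0
  · exact Or.inl h0
  by_cases h1 : x ∈ Z 1
  · exact Or.inr (Or.inl h1)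
  right
  right
  simp only [Z, mem_ofPred_eq, not_forall, not_exists, not_and, not_lt] at h0 h1
  obtain ⟨N0, hN0⟩ := h0
  obtain ⟨N1, hN1⟩ := h1
  refine ⟨max N0 N1, fun i => ⌊x i * 2 ^ (max N0 N1)⌋, ?_, ?_⟩
  · intro k hk i m
    fin_cases i
    · exact hN0 k ((le_max_left _ _).trans hk) m
    · exact hN1 k ((le_max_right _ _).trans hk) m
  · intro i
    have h2 : (0 : ℝ) < 2 ^ (max N0 N1) := by positivity
    constructor
    · rw [div_le_iff₀ h2]
      exact Int.floor_le _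
    · rw [le_div_iff₀ h2]
      exact (Int.lt_floor_add_one _).le

/-- Dyadic floor. -/
noncomputable def fl (k : ℕ) (u : ℝ) : ℤ := ⌊2 ^ k * u⌋

/-- Dyadic digit of level `k + 1`. -/
noncomputable def dg (k : ℕ) (u : ℝ) : ℤ := fl (k + 1) u - 2 * fl k u

theorem dg_range (k : ℕ) (u : ℝ) : 0 ≤ dg k u ∧ dg k u ≤ 1 := by
  unfold dg fl
  have h1 := Int.floor_le ((2 : ℝ) ^ k * u)
  have h2 := Int.lt_floor_add_one ((2 : ℝ) ^ k * u)
  have h3 := Int.floor_le ((2 : ℝ) ^ (k + 1) * u)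
  have h4 := Int.lt_floor_add_one ((2 : ℝ) ^ (k + 1) * u)
  have h5 : (2 : ℝ) ^ (k + 1) * u = 2 * (2 ^ k * u) := by ring
  rw [h5] at h3 h4 ⊢
  constructor
  · have : 2 * ⌊(2 : ℝ) ^ k * u⌋ ≤ ⌊2 * ((2 : ℝ) ^ k * u)⌋ := by
      rw [Int.le_floor]
      push_cast
      linarith
    omega
  · have : (⌊2 * ((2 : ℝ) ^ k * u)⌋ : ℝ) < 2 * ⌊(2 : ℝ) ^ k * u⌋ + 2 := by linarith
    have h6 : ⌊2 * ((2 : ℝ) ^ k * u)⌋ < 2 * ⌊(2 : ℝ) ^ k * u⌋ + 2 := by exact_mod_cast this
    omega

/-- The combined digit. -/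
noncomputable def dd (k : ℕ) (x : Plane) : ℤ := 2 * dg k (x 0) + dg k (x 1)

theorem dd_range (k : ℕ) (x : Plane) : 0 ≤ dd k x ∧ dd k x ≤ 3 := by
  have h1 := dg_range k (x 0)
  have h2 := dg_range k (x 1)
  unfold dd
  omega

/-- The coding map. -/
noncomputable def phi (β : ℝ) (j : ℕ) (x : Plane) : ℝ := ∑' k : ℕ, (dd (j + k) x : ℝ) * (β⁻¹) ^ k

theorem continuousOn_fl {j : ℕ} {q : Fin 2 → ℤ} {k : ℕ} (hk : j ≤ k) (i : Fin 2) :
    ∀ x ∈ C j q, ∀ᶠ y in 𝓝 x, fl k (y i) = fl k (x i) := by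
  intro x hx
  have h2 : (0 : ℝ) < 2 ^ k := by positivity
  have h1 := Int.floor_le ((2 : ℝ) ^ k * x i)
  have h3 := Int.lt_floor_add_one ((2 : ℝ) ^ k * x i)
  have h4 : (⌊(2 : ℝ) ^ k * x i⌋ : ℝ) ≠ 2 ^ k * x i := by
    intro h
    have h5 := hx.1 k hk i ⌊(2 : ℝ) ^ k * x i⌋
    rw [h] at h5
    have h6 : (2 : ℝ) ^ k * x i / 2 ^ k = x i := by field_simp
    rw [h6, sub_self, abs_zero] at h5
    exact absurd h5 (not_le.mpr (w_pos k))
  have h5 := lt_of_le_of_ne h1 h4
  have hcont : Continuous fun y : Plane => (2 : ℝ) ^ k * y i := by fun_prop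
  have h6 := hcont.continuousAt.eventually (Ioo_mem_nhds h5 h3 : Ioo _ _ ∈ 𝓝 ((2 : ℝ) ^ k * x i))
  filter_upwards [h6] with y hy
  unfold fl
  rw [Int.floor_eq_iff]
  exact ⟨hy.1.le, hy.2⟩

theorem continuousOn_dd {j : ℕ} {q : Fin 2 → ℤ} {k : ℕ} (hk : j ≤ k) :
    ContinuousOn (fun x => (dd k x : ℝ)) (C j q) := by
  intro x hx
  apply ContinuousAt.continuousWithinAt
  have h : (fun y : Plane => (dd k y : ℝ)) =ᶠ[𝓝 x] fun _ => (dd k x : ℝ) := by
    filter_upwards [continuousOn_fl hk 0 x hx, continuousOn_fl hk 1 x hx,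
      continuousOn_fl (hk.trans (Nat.le_succ k)) 0 x hx,
      continuousOn_fl (hk.trans (Nat.le_succ k)) 1 x hx] with y h0 h1 h2 h3
    simp only [dd, dg]
    rw [h0, h1]
    have h2' : fl (k + 1) (y 0) = fl (k + 1) (x 0) := h2
    have h3' : fl (k + 1) (y 1) = fl (k + 1) (x 1) := h3
    rw [h2', h3']
  exact continuousAt_const.congr h.symm

theorem continuousOn_phi {β : ℝ} (hβ : 4 < β) (j : ℕ) (q : Fin 2 → ℤ) :
    ContinuousOn (phi β j) (C j q) := by
  unfold phi
  have hb0 : 0 < β⁻¹ := inv_pos.mpr (by linarith)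
  have hb1 : β⁻¹ < 1 := inv_lt_one_of_one_lt₀ (by linarith)
  apply continuousOn_tsum (u := fun k => 3 * (β⁻¹) ^ k)
  · intro k
    exact (continuousOn_dd (Nat.le_add_right j k)).mul continuousOn_const
  · exact (summable_geometric_of_lt_one hb0.le hb1).mul_left 3
  · intro k x _
    have h1 := dd_range (j + k) x
    rw [norm_mul, Real.norm_of_nonneg (pow_nonneg hb0.le k)]
    apply mul_le_mul_of_nonneg_right _ (pow_nonneg hb0.le k)
    rw [Real.norm_eq_abs, abs_le]
    have h2 : (0 : ℝ) ≤ dd (j + k) x := by exact_mod_cast h1.1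
    have h3 : (dd (j + k) x : ℝ) ≤ 3 := by exact_mod_cast h1.2
    constructor <;> linarith

theorem fl_C {j : ℕ} {q : Fin 2 → ℤ} {x : Plane} (hx : x ∈ C j q) (i : Fin 2) :
    fl j (x i) = q i := by
  have h2 : (0 : ℝ) < 2 ^ j := by positivity
  have h1 := hx.2 i
  have h3 := hx.1 j le_rfl i (q i + 1)
  unfold fl
  rw [Int.floor_eq_iff]
  rw [div_le_iff₀ h2, le_div_iff₀ h2] at h1
  refine ⟨by linarith [h1.1], ?_⟩
  have h4 : x i ≠ (q i + 1) / 2 ^ j := by
    intro h
    rw [h] at h3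
    push_cast at h3
    rw [sub_self, abs_zero] at h3
    exact absurd h3 (not_le.mpr (w_pos j))
  have h5 : 2 ^ j * x i ≠ q i + 1 := by
    intro h
    apply h4
    rw [← h]
    field_simp
  exact lt_of_le_of_ne (by linarith [h1.2]) h5

theorem abs_sub_le_of_fl {k : ℕ} {u v : ℝ} (h : fl k u = fl k v) : |u - v| ≤ (1 / 2) ^ k := by
  unfold fl at h
  have h1 := Int.floor_le ((2 : ℝ) ^ k * u)
  have h2 := Int.lt_floor_add_one ((2 : ℝ) ^ k * u)
  have h3 := Int.floor_le ((2 : ℝ) ^ k * v)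
  have h4 := Int.lt_floor_add_one ((2 : ℝ) ^ k * v)
  rw [h] at h1 h2
  have h5 : (0 : ℝ) < 2 ^ k := by positivity
  have h6 : (1 / 2 : ℝ) ^ k * 2 ^ k = 1 := by
    rw [← mul_pow]
    norm_num
  rw [abs_le]
  constructor
  · by_contra hcon
    push Not at hcon
    nlinarith
  · by_contra hcon
    push Not at hcon
    nlinarith

theorem key_lower {β : ℝ} (hβ : 4 < β) {j : ℕ} {q : Fin 2 → ℤ} {x y : Plane}
    (hx : x ∈ C j q) (hy : y ∈ C j q) (hxy : x ≠ y) :
    ∃ k : ℕ, dist x y ≤ 2 * (1 / 2) ^ k ∧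
      (1 - 3 / (β - 1)) * (β⁻¹) ^ k ≤ |phi β j x - phi β j y| := by
  classical
  have hb0 : 0 < β⁻¹ := inv_pos.mpr (by linarith)
  have hb1 : β⁻¹ < 1 := inv_lt_one_of_one_lt₀ (by linarith)
  have hex : ∃ k, ∃ i, fl (j + k + 1) (x i) ≠ fl (j + k + 1) (y i) := by
    by_contra hcon
    push Not at hcon
    apply hxy
    ext i
    have h1 : ∀ k : ℕ, |x i - y i| ≤ (1 / 2) ^ k := by
      intro k
      refine (abs_sub_le_of_fl (hcon k i)).trans ?_
      exact pow_le_pow_of_le_one (by norm_num) (by norm_num) (by omega)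
    have h2 : Tendsto (fun k : ℕ => (1 / 2 : ℝ) ^ k) atTop (𝓝 0) :=
      tendsto_pow_atTop_nhds_zero_of_lt_one (by norm_num) (by norm_num)
    have h3 : |x i - y i| ≤ 0 := ge_of_tendsto' h2 h1
    have h4 := le_antisymm h3 (abs_nonneg _)
    exact sub_eq_zero.mp (abs_eq_zero.mp h4)
  let k := Nat.find hex
  have hk : ∃ i, fl (j + k + 1) (x i) ≠ fl (j + k + 1) (y i) := Nat.find_spec hex
  have hk' : ∀ l < k, ∀ i, fl (j + l + 1) (x i) = fl (j + l + 1) (y i) := by
    intro l hl i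
    have := Nat.find_min hex hl
    push Not at this
    exact this i
  have hfl : ∀ l ≤ k, ∀ i, fl (j + l) (x i) = fl (j + l) (y i) := by
    intro l hl i
    rcases Nat.eq_zero_or_pos l with h | h
    · subst h
      rw [Nat.add_zero, fl_C hx, fl_C hy]
    · obtain ⟨l', rfl⟩ : ∃ l', l = l' + 1 := ⟨l - 1, by omega⟩
      exact hk' l' (by omega) i
  refine ⟨k, ?_, ?_⟩
  · have h1 : ∀ i, |x i - y i| ≤ (1 / 2) ^ k := by
      intro i
      refine (abs_sub_le_of_fl (hfl k le_rfl i)).trans ?_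
      exact pow_le_pow_of_le_one (by norm_num) (by norm_num) (by omega)
    have h2 := dist_le x y
    linarith [h1 0, h1 1]
  · let u : ℕ → ℝ := fun l => ((dd (j + l) x : ℝ) - dd (j + l) y) * (β⁻¹) ^ l
    have hbound : ∀ l, |((dd (j + l) x : ℝ) - dd (j + l) y)| ≤ 3 := by
      intro l
      have h1 := dd_range (j + l) x
      have h2 := dd_range (j + l) y
      have h3 : |dd (j + l) x - dd (j + l) y| ≤ 3 := by
        rw [abs_le]
        omega
      exact_mod_cast h3
    have hgeo : Summable (fun l : ℕ => (β⁻¹) ^ l) := summable_geometric_of_lt_one hb0.le hb1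
    have hsumx : ∀ z : Plane, Summable (fun l => (dd (j + l) z : ℝ) * (β⁻¹) ^ l) := by
      intro z
      refine Summable.of_norm_bounded (g := fun l => 3 * (β⁻¹) ^ l) (hgeo.mul_left 3) ?_
      intro l
      have h1 := dd_range (j + l) z
      rw [norm_mul, Real.norm_of_nonneg (pow_nonneg hb0.le l)]
      apply mul_le_mul_of_nonneg_right _ (pow_nonneg hb0.le l)
      rw [Real.norm_eq_abs, abs_le]
      have h2 : (0 : ℝ) ≤ dd (j + l) z := by exact_mod_cast h1.1
      have h3 : (dd (j + l) z : ℝ) ≤ 3 := by exact_mod_cast h1.2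
      constructor <;> linarith
    have hdiff : phi β j x - phi β j y = ∑' l, u l := by
      unfold phi
      rw [← (hsumx x).tsum_sub (hsumx y)]
      congr 1
      funext l
      simp only [u]
      ring
    have husum : Summable u := by
      have := (hsumx x).sub (hsumx y)
      refine this.congr ?_
      intro l
      simp only [u]
      ring
    have hsplit := husum.sum_add_tsum_nat_add (k + 1)
    have hzero : ∀ l < k, u l = 0 := by
      intro l hl
      have h1 : dd (j + l) x = dd (j + l) y := by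
        simp only [dd, dg]
        rw [hfl l hl.le 0, hfl l hl.le 1, hk' l hl 0, hk' l hl 1]
      simp only [u]
      rw [h1, sub_self, zero_mul]
    have hfin : ∑ l ∈ Finset.range (k + 1), u l = u k := by
      rw [Finset.sum_range_succ, Finset.sum_eq_zero, zero_add]
      intro l hl
      exact hzero l (Finset.mem_range.mp hl)
    have huk : (β⁻¹) ^ k ≤ |u k| := by
      have h1 : dd (j + k) x ≠ dd (j + k) y := by
        intro h
        simp only [dd, dg] at h
        rw [hfl k le_rfl 0, hfl k le_rfl 1] at h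
        have hx0 := dg_range (j + k) (x 0)
        have hx1 := dg_range (j + k) (x 1)
        have hy0 := dg_range (j + k) (y 0)
        have hy1 := dg_range (j + k) (y 1)
        unfold dg at hx0 hx1 hy0 hy1
        rw [hfl k le_rfl 0] at hx0
        rw [hfl k le_rfl 1] at hx1
        have h2 : fl (j + k + 1) (x 0) = fl (j + k + 1) (y 0) := by omega
        have h3 : fl (j + k + 1) (x 1) = fl (j + k + 1) (y 1) := by omega
        obtain ⟨i, hi⟩ := hk
        apply hi
        fin_cases i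
        · exact h2
        · exact h3
      have h2 : 1 ≤ |dd (j + k) x - dd (j + k) y| := Int.one_le_abs (sub_ne_zero.mpr h1)
      have h3 : (1 : ℝ) ≤ |(dd (j + k) x : ℝ) - dd (j + k) y| := by exact_mod_cast h2
      simp only [u]
      rw [abs_mul, abs_of_nonneg (pow_nonneg hb0.le k)]
      have := pow_nonneg hb0.le k
      nlinarith
    have htail : |∑' l, u (l + (k + 1))| ≤ 3 / (β - 1) * (β⁻¹) ^ k := by
      have h1 : HasSum (fun l : ℕ => 3 * (β⁻¹) ^ (k + 1) * (β⁻¹) ^ l)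
          (3 * (β⁻¹) ^ (k + 1) * (1 - β⁻¹)⁻¹) :=
        (hasSum_geometric_of_lt_one hb0.le hb1).mul_left _
      have h2 : ∀ l, ‖u (l + (k + 1))‖ ≤ 3 * (β⁻¹) ^ (k + 1) * (β⁻¹) ^ l := by
        intro l
        simp only [u]
        rw [norm_mul, Real.norm_eq_abs, Real.norm_of_nonneg (pow_nonneg hb0.le _), pow_add]
        have h3 := hbound (l + (k + 1))
        have h4 : (0 : ℝ) ≤ (β⁻¹) ^ l * (β⁻¹) ^ (k + 1) := by positivity
        nlinarith
      have h3 := tsum_of_norm_bounded h1 h2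
      rw [Real.norm_eq_abs] at h3
      refine h3.trans (le_of_eq ?_)
      have h4 : β ≠ 0 := by linarith
      have h5 : β - 1 ≠ 0 := by
        intro h
        linarith
      rw [pow_succ]
      have h6 : (1 - β⁻¹)⁻¹ = β / (β - 1) := by
        rw [eq_div_iff h5]
        have : (1 - β⁻¹) = (β - 1) / β := by field_simp
        rw [this]
        field_simp
      rw [h6]
      field_simp
    rw [hdiff, ← hsplit, hfin]
    have h1 : |u k| - |∑' l, u (l + (k + 1))| ≤ |u k + ∑' l, u (l + (k + 1))| := by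
      have := abs_sub_abs_le_abs_sub (u k) (-(∑' l, u (l + (k + 1))))
      rw [abs_neg, sub_neg_eq_add] at this
      exact this
    have h2 : (1 - 3 / (β - 1)) * (β⁻¹) ^ k = (β⁻¹) ^ k - 3 / (β - 1) * (β⁻¹) ^ k := by ring
    rw [h2]
    linarith

theorem co_holder {a : ℝ} (ha : 2 < a) (j : ℕ) (q : Fin 2 → ℤ) :
    ∃ K : ℝ, 0 < K ∧ ∀ x ∈ C j q, ∀ y ∈ C j q,
      dist x y ≤ K * |phi (2 ^ a) j x - phi (2 ^ a) j y| ^ a⁻¹ := by
  have hβ : (4 : ℝ) < 2 ^ a := by
    have h1 : (2 : ℝ) ^ (2 : ℝ) < 2 ^ a := Real.rpow_lt_rpow_of_exponent_lt (by norm_num) ha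
    have h2 : (2 : ℝ) ^ (2 : ℝ) = 4 := by norm_num
    linarith
  set β : ℝ := 2 ^ a with hβdef
  have hc : 0 < 1 - 3 / (β - 1) := by
    have h1 : 3 / (β - 1) < 1 := by
      rw [div_lt_one (by linarith)]
      linarith
    linarith
  set c := 1 - 3 / (β - 1) with hcdef
  have ha0 : 0 < a := by linarith
  refine ⟨2 * (c⁻¹) ^ a⁻¹, by positivity, ?_⟩
  intro x hx y hy
  by_cases hxy : x = y
  · subst hxy
    rw [dist_self]
    positivity
  obtain ⟨k, h1, h2⟩ := key_lower hβ hx hy hxy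
  refine h1.trans ?_
  rw [mul_assoc]
  apply mul_le_mul_of_nonneg_left _ (by norm_num)
  have h3 : ((1 : ℝ) / 2) ^ k = ((β⁻¹) ^ k) ^ a⁻¹ := by
    have h5 : ((1 : ℝ) / 2) ^ a = β⁻¹ := by
      rw [hβdef, one_div, Real.inv_rpow (by norm_num)]
    have h4 : (β⁻¹) ^ k = (((1 : ℝ) / 2) ^ k) ^ a := by
      rw [← h5, ← Real.rpow_natCast (((1 : ℝ) / 2) ^ a) k, ← Real.rpow_natCast ((1 : ℝ) / 2) k,
        ← Real.rpow_mul (by norm_num), ← Real.rpow_mul (by norm_num), mul_comm]
    rw [h4, ← Real.rpow_mul (by positivity), mul_inv_cancel₀ ha0.ne', Real.rpow_one]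
  rw [h3, ← Real.mul_rpow (by positivity) (abs_nonneg _)]
  apply Real.rpow_le_rpow (by positivity) _ (by positivity)
  rw [← div_eq_inv_mul, le_div_iff₀ hc, mul_comm]
  exact h2

theorem dimH_image {a : ℝ} (ha : 2 < a) (j : ℕ) (q : Fin 2 → ℤ) (E : Set Plane)
    (hE : E ⊆ C j q) (s : ℝ)
    (h : dimH (phi (2 ^ a) j '' E) ≤ ENNReal.ofReal s) : dimH E ≤ ENNReal.ofReal (a * s) := by
  classical
  obtain ⟨K, hK, hKb⟩ := co_holder ha j q
  have ha0 : 0 < a := by linarith
  rcases E.eq_empty_or_nonempty with hemp | hne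
  · rw [hemp, dimH_empty]
    exact bot_le
  have : Nonempty Plane := ⟨0⟩
  have hinj : InjOn (phi (2 ^ a) j) E := by
    intro x hx y hy hxy
    have h1 := hKb x (hE hx) y (hE hy)
    rw [hxy, sub_self, abs_zero, Real.zero_rpow (inv_ne_zero ha0.ne'), mul_zero] at h1
    exact dist_le_zero.mp h1
  let g : ℝ → Plane := Function.invFunOn (phi (2 ^ a) j) E
  have hg : ∀ x ∈ E, g (phi (2 ^ a) j x) = x := fun x hx => hinj.leftInvOn_invFunOn hx
  let r : ℝ≥0 := ⟨a⁻¹, by positivity⟩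
  have hH : HolderOnWith ⟨K, hK.le⟩ r g (phi (2 ^ a) j '' E) := by
    rintro _ ⟨x, hx, rfl⟩ _ ⟨y, hy, rfl⟩
    rw [hg x hx, hg y hy, edist_dist, edist_dist, Real.dist_eq]
    have h1 := hKb x (hE hx) y (hE hy)
    have h2 : ENNReal.ofReal (dist x y) ≤
        ENNReal.ofReal (K * |phi (2 ^ a) j x - phi (2 ^ a) j y| ^ a⁻¹) :=
      ENNReal.ofReal_le_ofReal h1
    refine h2.trans (le_of_eq ?_)
    rw [ENNReal.ofReal_mul hK.le, ENNReal.ofReal_rpow_of_nonneg (abs_nonneg _) (by positivity)]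
    congr 1
    exact ENNReal.ofReal_eq_coe_nnreal hK.le
  have hr : 0 < r := by
    change (0 : ℝ) < a⁻¹
    positivity
  have h1 := hH.dimH_image_le hr
  have h2 : g '' (phi (2 ^ a) j '' E) = E := by
    rw [image_image]
    have : EqOn (fun x => g (phi (2 ^ a) j x)) id E := hg
    rw [this.image_eq, image_id]
  rw [h2] at h1
  refine h1.trans ((ENNReal.div_le_div_right h _).trans (le_of_eq ?_))
  have h3 : (r : ℝ≥0∞) = ENNReal.ofReal a⁻¹ := (ENNReal.ofReal_eq_coe_nnreal _).symm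
  rw [h3, ← ENNReal.ofReal_div_of_pos (by positivity)]
  congr 1
  field_simp

/-- For every `s` strictly between `0` and `1`, every plane set of Hausdorff dimension `1 + s`
has a continuous real image of Hausdorff dimension larger than `s`. -/
theorem result : ∀ s : ℝ, 0 < s → s < 1 → ∀ E : Set (EuclideanSpace ℝ (Fin 2)),
    dimH E = ENNReal.ofReal (1 + s) →
      ∃ f : EuclideanSpace ℝ (Fin 2) → ℝ, Continuous f ∧ ENNReal.ofReal s < dimH (f '' E) := by
  intro s hs0 hs1 E hE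
  obtain ⟨a, ha2, has⟩ : ∃ a : ℝ, 2 < a ∧ a * s < 1 + s := by
    refine ⟨2 + (1 - s) / (2 * s), ?_, ?_⟩
    · have : 0 < (1 - s) / (2 * s) := by
        apply div_pos <;> linarith
      linarith
    · have h1 : (2 + (1 - s) / (2 * s)) * s = 2 * s + (1 - s) / 2 := by
        field_simp
      rw [h1]
      linarith
  have hpiece : ∃ j q, ENNReal.ofReal (a * s) < dimH (E ∩ C j q) := by
    by_contra hcon
    push Not at hcon
    have hcov : E ⊆ (Z 0 ∪ Z 1) ∪ ⋃ p : ℕ × (Fin 2 → ℤ), E ∩ C p.1 p.2 := by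
      intro x hx
      rcases cover_C x with h | h | ⟨j, q, h⟩
      · exact Or.inl (Or.inl h)
      · exact Or.inl (Or.inr h)
      · exact Or.inr (mem_iUnion.mpr ⟨(j, q), hx, h⟩)
    have h1 := dimH_mono hcov
    rw [dimH_union, dimH_union, dimH_iUnion, hE] at h1
    have h2 : (⨆ p : ℕ × (Fin 2 → ℤ), dimH (E ∩ C p.1 p.2)) ≤ ENNReal.ofReal (a * s) :=
      iSup_le fun p => hcon p.1 p.2
    have h3 : ENNReal.ofReal (1 + s) ≤ max 1 (ENNReal.ofReal (a * s)) :=
      h1.trans (max_le_max (max_le (dimH_Z 0) (dimH_Z 1)) h2)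
    rcases le_max_iff.mp h3 with h4 | h4
    · rw [← ENNReal.ofReal_one, ENNReal.ofReal_le_ofReal_iff (by norm_num)] at h4
      linarith
    · rw [ENNReal.ofReal_le_ofReal_iff (by positivity)] at h4
      linarith
  obtain ⟨j, q, hjq⟩ := hpiece
  have hβ : (4 : ℝ) < 2 ^ a := by
    have h1 : (2 : ℝ) ^ (2 : ℝ) < 2 ^ a := Real.rpow_lt_rpow_of_exponent_lt (by norm_num) ha2
    have h2 : (2 : ℝ) ^ (2 : ℝ) = 4 := by norm_num
    linarith
  have hcont := continuousOn_phi hβ j q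
  let F : C(C j q, ℝ) := ⟨(C j q).domRestrict (phi (2 ^ a) j),
    continuousOn_iff_continuous_domRestrict.mp hcont⟩
  obtain ⟨f, hf⟩ := F.exists_restrict_eq (isClosed_C j q)
  refine ⟨f, f.continuous, ?_⟩
  have hfe : ∀ x ∈ C j q, f x = phi (2 ^ a) j x := by
    intro x hx
    have := congrArg (fun g : C(C j q, ℝ) => g ⟨x, hx⟩) hf
    exact this
  by_contra hcon
  rw [not_lt] at hcon
  have h1 : dimH (phi (2 ^ a) j '' (E ∩ C j q)) ≤ ENNReal.ofReal s := by
    refine (dimH_mono ?_).trans hcon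
    rintro _ ⟨x, hx, rfl⟩
    exact ⟨x, hx.1, hfe x hx.2⟩
  exact absurd (dimH_image ha2 j q (E ∩ C j q) inter_subset_right s h1) (not_le.mpr hjq)

end Pool.Agent.Results.MP_2d1133_lc.ContinuousImages
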